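import Pool.Agent.H83.FD.TargetsB

/-!
CPX: pieces in caps of fixed radius stay in the class `EnX` (board `fdb_modules`).
-/

set_option autoImplicit false

namespace Pool.Agent.H42.FD.CPX

open MeasureTheory Set
open scoped ENNReal NNReal RealInnerProductSpace
open Pool.Agent.H83.G Pool.Agent.H83.FD

variable {m : ℕ}

/-- the product of two bumps -/
private theorem bump_mul {L : ℕ} {φ b : E m → ℂ} (hφ : φ ∈ Bp m L) (hb : b ∈ Bp m L)
    (η : E m) {t K : ℝ} (ht0 : 0 < t) (hK : 1 ≤ K) (htK : t ≤ K) :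
    (fun u => (((2 ^ L * K ^ L : ℝ)⁻¹ : ℝ) : ℂ) * (φ u * b (t • u + η))) ∈ Bp m L := by
  have hK0 : 0 < K := by linarith
  have hcomp : ContDiff ℝ (⊤ : ℕ∞) fun u : E m => b (t • u + η) :=
    hb.1.comp ((contDiff_const_smul t).add contDiff_const)
  have hmul : ContDiff ℝ (⊤ : ℕ∞) fun u : E m => φ u * b (t • u + η) := hφ.1.mul hcomp
  refine ⟨contDiff_const.mul hmul, fun x hx => ?_, fun j hj x => ?_⟩
  · simp only
    rw [hφ.2.1 x hx, zero_mul, mul_zero]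
  · have hd : ∀ i ≤ L, ∀ x, ‖iteratedFDeriv ℝ i (fun u : E m => b (t • u + η)) x‖ ≤ K ^ L := by
      intro i hi x
      have h1 : (fun u : E m => b (t • u + η)) = fun u => (fun v => b (v + η)) (t • u) := rfl
      have h2 : ContDiff ℝ i fun v : E m => b (v + η) :=
        (hb.1.comp (contDiff_id.add contDiff_const)).of_le (by exact_mod_cast le_top)
      rw [h1, iteratedFDeriv_comp_const_smul t h2]
      simp only
      rw [iteratedFDeriv_comp_add_right]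
      rw [norm_smul, norm_pow, Real.norm_eq_abs, abs_of_pos ht0]
      calc t ^ i * ‖iteratedFDeriv ℝ i b (t • x + η)‖ ≤ K ^ L * 1 := by
            apply mul_le_mul ?_ (hb.2.2 i hi _) (norm_nonneg _) (by positivity)
            exact (pow_le_pow_left₀ ht0.le htK i).trans (pow_le_pow_right₀ hK hi)
        _ = K ^ L := mul_one _
    have h3 : iteratedFDeriv ℝ j (fun u => (((2 ^ L * K ^ L : ℝ)⁻¹ : ℝ) : ℂ) *
        (φ u * b (t • u + η))) x =
        (((2 ^ L * K ^ L : ℝ)⁻¹ : ℝ) : ℂ) •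
          iteratedFDeriv ℝ j (fun u => φ u * b (t • u + η)) x := by
      have : (fun u => (((2 ^ L * K ^ L : ℝ)⁻¹ : ℝ) : ℂ) * (φ u * b (t • u + η))) =
          (((2 ^ L * K ^ L : ℝ)⁻¹ : ℝ) : ℂ) • fun u => (φ u * b (t • u + η)) := rfl
      rw [this]
      exact iteratedFDeriv_const_smul_apply (hmul.of_le (by exact_mod_cast le_top)).contDiffAt
    rw [h3, norm_smul]
    have h4 := norm_iteratedFDeriv_mul_le (𝕜 := ℝ) (f := φ) (g := fun u => b (t • u + η))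
      (hφ.1.of_le (by exact_mod_cast le_top : (j : WithTop ℕ∞) ≤ ((⊤ : ℕ∞) : WithTop ℕ∞)))
      (hcomp.of_le (by exact_mod_cast le_top : (j : WithTop ℕ∞) ≤ ((⊤ : ℕ∞) : WithTop ℕ∞)))
      x le_rfl
    have h5 : ∑ i ∈ Finset.range (j + 1), (j.choose i : ℝ) * ‖iteratedFDeriv ℝ i φ x‖ *
        ‖iteratedFDeriv ℝ (j - i) (fun u => b (t • u + η)) x‖ ≤ 2 ^ L * K ^ L := by
      calc _ ≤ ∑ i ∈ Finset.range (j + 1), (j.choose i : ℝ) * 1 * K ^ L := by
            apply Finset.sum_le_sum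
            intro i hi
            have hij : i ≤ j := Nat.lt_succ_iff.1 (Finset.mem_range.1 hi)
            have a1 := hφ.2.2 i (hij.trans hj) x
            have a2 := hd (j - i) ((Nat.sub_le _ _).trans hj) x
            gcongr
        _ = 2 ^ j * K ^ L := by
            rw [← Finset.sum_mul]
            simp only [mul_one]
            rw [← Nat.cast_sum, Nat.sum_range_choose]
            push_cast
            rfl
        _ ≤ 2 ^ L * K ^ L := by
            gcongr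
            norm_num
    have h6 : ‖((((2 ^ L * K ^ L : ℝ)⁻¹ : ℝ)) : ℂ)‖ = (2 ^ L * K ^ L : ℝ)⁻¹ := by
      rw [Complex.norm_real, Real.norm_eq_abs, abs_of_pos (by positivity)]
    rw [h6]
    calc (2 ^ L * K ^ L : ℝ)⁻¹ * _ ≤ (2 ^ L * K ^ L : ℝ)⁻¹ * (2 ^ L * K ^ L) := by
          apply mul_le_mul_of_nonneg_left (h4.trans h5) (by positivity)
      _ = 1 := inv_mul_cancel₀ (by positivity)

private theorem TP_const_mul (a : ℂ) (φ : E m → ℂ) (η : E m) (s : ℝ) (G : Z m → ℂ) (z : Z m) :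
    TP (fun x => a * φ x) η s G z = a * TP φ η s G z := by
  unfold TP TF
  rw [← integral_const_mul]
  congr 1
  funext ζ
  unfold cp
  ring

theorem pf_CPX (hPUB : T_PUB) : T_CPX := by
  intro m L β α K hβ hK
  obtain ⟨Cb, hCb1, hCb⟩ := hPUB m L β hβ
  have hK0 : 0 < K := by linarith
  have hCb0 : 0 < Cb := by linarith
  obtain ⟨b, hb⟩ : ∃ b : E m → ℂ, b = fun x => ((Cb⁻¹ : ℝ) : ℂ) * β x := ⟨_, rfl⟩
  rw [← hb] at hCb
  obtain ⟨M, hM⟩ : ∃ M : ℝ, M = 2 ^ L * K ^ L := ⟨_, rfl⟩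
  have hM1 : 1 ≤ M := by
    rw [hM]
    have h1 : (1 : ℝ) ≤ 2 ^ L := one_le_pow₀ (by norm_num)
    have h2 : (1 : ℝ) ≤ K ^ L := one_le_pow₀ hK
    nlinarith
  have hM0 : 0 < M := by linarith
  refine ⟨M * Cb, by nlinarith, fun R A G c hR hA hG => ?_⟩
  intro I φ η s r z₀ hφ hsep hcap hs hs1 hr hr1
  have hsR : 0 < sR R := by unfold sR; positivity
  have hsR1 : sR R ≤ 1 := by
    unfold sR
    apply inv_le_one_of_one_le₀
    rw [← Real.sqrt_one]
    exact Real.sqrt_le_sqrt hR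
  -- the product of the bumps
  obtain ⟨Φ, hΦ⟩ : ∃ Φ : E m → E m → ℂ, Φ = fun x u => ((M⁻¹ : ℝ) : ℂ) *
    (φ x u * b ((K * sR R) • u + K • (x - c))) := ⟨_, rfl⟩
  have hΦB : ∀ x ∈ I, Φ x ∈ Bp m L := by
    intro x hx
    rw [hΦ, hM]
    exact bump_mul (hφ x hx) hCb (K • (x - c)) (by positivity) hK
      (mul_le_of_le_one_right hK0.le hsR1)
  have hcp : ∀ x, ∀ ζ : Z m, cp (φ x) x (sR R) ζ * (cp β c K⁻¹ ζ * G ζ) =
      ((M * Cb : ℝ) : ℂ) * (cp (Φ x) x (sR R) ζ * G ζ) := by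
    intro x ζ
    have h1 : (K * sR R) • ((sR R)⁻¹ • (ζ.1⁻¹ • ζ.2.1 - x)) + K • (x - c) =
        (K⁻¹)⁻¹ • (ζ.1⁻¹ • ζ.2.1 - c) := by
      rw [smul_smul, mul_assoc, mul_inv_cancel₀ hsR.ne', mul_one, ← smul_add, inv_inv]
      congr 1
      abel
    unfold cp
    rw [hΦ]
    simp only
    rw [h1, hb]
    simp only
    have h2 : (M : ℂ) ≠ 0 := Complex.ofReal_ne_zero.2 hM0.ne'
    have h3 : (Cb : ℂ) ≠ 0 := Complex.ofReal_ne_zero.2 hCb0.ne'
    push_cast
    field_simp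
  have htp : ∀ x z, TP (φ x) x (sR R) (fun ζ => cp β c K⁻¹ ζ * G ζ) z =
      ((M * Cb : ℝ) : ℂ) * TP (Φ x) x (sR R) G z := by
    intro x z
    unfold TP TF
    rw [← integral_const_mul]
    congr 1
    funext ζ
    beta_reduce
    rw [hcp x ζ]
    ring
  have hen : ∀ x z, ‖TP (φ x) x (sR R) (fun ζ => cp β c K⁻¹ ζ * G ζ) z‖ₑ ^ 2 =
      ENNReal.ofReal ((M * Cb) ^ 2) * ‖TP (Φ x) x (sR R) G z‖ₑ ^ 2 := by
    intro x z
    rw [htp, enorm_mul, mul_pow]
    congr 1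
    rw [← ofReal_norm, Complex.norm_real, Real.norm_eq_abs, abs_of_pos (by positivity),
      ← ENNReal.ofReal_pow (by positivity)]
  have hmain := hG I Φ η s r z₀ hΦB hsep hcap hs hs1 hr hr1
  calc ∑ x ∈ I, ∫⁻ z in VX η s r R z₀,
        ‖TP (φ x) x (sR R) (fun ζ => cp β c K⁻¹ ζ * G ζ) z‖ₑ ^ 2
      = ∑ x ∈ I, ENNReal.ofReal ((M * Cb) ^ 2) *
        ∫⁻ z in VX η s r R z₀, ‖TP (Φ x) x (sR R) G z‖ₑ ^ 2 := by
        refine Finset.sum_congr rfl fun x _ => ?_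
        rw [← lintegral_const_mul' _ _ ENNReal.ofReal_ne_top]
        refine lintegral_congr fun z => ?_
        rw [hen]
    _ = ENNReal.ofReal ((M * Cb) ^ 2) *
        ∑ x ∈ I, ∫⁻ z in VX η s r R z₀, ‖TP (Φ x) x (sR R) G z‖ₑ ^ 2 := by
        rw [Finset.mul_sum]
    _ ≤ ENNReal.ofReal ((M * Cb) ^ 2) *
        ENNReal.ofReal (A ^ 2 * (R * (R * s) ^ m * min (R ^ (α - m)) (r ^ (α - m)))) :=
        mul_le_mul' le_rfl hmain
    _ = ENNReal.ofReal ((M * Cb * A) ^ 2 *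
        (R * (R * s) ^ m * min (R ^ (α - m)) (r ^ (α - m)))) := by
        rw [← ENNReal.ofReal_mul (by positivity)]
        congr 1
        ring

end Pool.Agent.H42.FD.CPX
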