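import Pool.Agent.H83.FD.TargetsB

/-!
ENX: the energy in a ball of radius `R` for the class `EnX` (board `fdb_modules`).
-/

set_option autoImplicit false

namespace Pool.Agent.H42.FD.ENX

open MeasureTheory Set
open scoped ENNReal NNReal RealInnerProductSpace
open Pool.Agent.H83.G Pool.Agent.H83.FD

variable {m : ℕ}

private theorem TP_const_mul (a : ℂ) (φ : E m → ℂ) (η : E m) (s : ℝ) (G : Z m → ℂ) (z : Z m) :
    TP (fun x => a * φ x) η s G z = a * TP φ η s G z := by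
  unfold TP TF
  rw [← integral_const_mul]
  congr 1
  funext ζ
  unfold cp
  ring

private theorem st_ball (η : E m) (R : ℝ) (z : Z m) :
    St η 1 R R z = R⁻¹ • Lo η 1 z := by
  unfold St
  rw [one_pow, mul_one]
  rfl

private theorem ctr_sep {s : ℝ} (hs : 0 < s) {k k' : Fin m → ℤ} (h : k ≠ k') :
    s ≤ ((m : ℝ) + 1) * ‖ctr s k - ctr s k'‖ := by
  obtain ⟨i, hi⟩ : ∃ i, k i ≠ k' i := by
    by_contra hcon
    push Not at hcon
    exact h (funext hcon)
  have hm : (0 : ℝ) < (m : ℝ) + 1 := by positivity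
  have h1 : ctr s k - ctr s k' = (s / ((m : ℝ) + 1)) •
      (WithLp.toLp 2 (fun i => (k i : ℝ) - (k' i : ℝ)) : E m) := by
    unfold ctr
    rw [← smul_sub]
    rfl
  have h2 : (1 : ℝ) ≤ ‖(WithLp.toLp 2 (fun i => (k i : ℝ) - (k' i : ℝ)) : E m)‖ := by
    have h3 := PiLp.norm_apply_le
      (WithLp.toLp 2 (fun i => (k i : ℝ) - (k' i : ℝ)) : E m) i
    refine le_trans ?_ h3
    simp only
    rw [Real.norm_eq_abs, ← Int.cast_sub, ← Int.cast_abs]
    have h4 : (1 : ℤ) ≤ |k i - k' i| := Int.one_le_abs (sub_ne_zero.2 hi)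
    exact_mod_cast h4
  rw [h1, norm_smul, Real.norm_eq_abs, abs_of_pos (by positivity)]
  have h5 : ((m : ℝ) + 1) * (s / ((m : ℝ) + 1) *
      ‖(WithLp.toLp 2 (fun i => (k i : ℝ) - (k' i : ℝ)) : E m)‖) =
      s * ‖(WithLp.toLp 2 (fun i => (k i : ℝ) - (k' i : ℝ)) : E m)‖ := by
    field_simp
  rw [h5]
  nlinarith

private theorem ctr_inj {s : ℝ} (hs : 0 < s) : Function.Injective (ctr s : (Fin m → ℤ) → E m) := by
  intro k k' h
  by_contra hne
  have h1 := ctr_sep hs hne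
  rw [h, sub_self, norm_zero, mul_zero] at h1
  linarith

theorem pf_ENX (hAVX : T_AVX) (hLOA : T_LOA) (hLOB : T_LOB) (hPUS : T_PUS) (hPUB : T_PUB)
    (hWT1 : T_WT1) (hSCH : T_SCH) (hCPS : T_CPS) : T_ENX := by
  classical
  intro m L N β α δ hβ hδ hN
  obtain ⟨-, -, C₀, hC₀, -, -, hctr⟩ := hPUS m
  obtain ⟨Cb, hCb1, hCb⟩ := hPUB m L β hβ
  obtain ⟨C₂, havx⟩ := hAVX m N hN
  have hCb0 : 0 < Cb := by linarith
  -- finitely many caps of radius one
  obtain ⟨T, hT1, hTf, hT2⟩ := (isCompact_closedBall (0 : E m) C₀).finite_cover_balls one_pos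
  obtain ⟨D, hD⟩ : ∃ D : ℝ, D = (1 + C₀) ^ 2 := ⟨_, rfl⟩
  have hD1 : 1 ≤ D := by
    rw [hD]
    nlinarith
  have hD0 : 0 < D := by linarith
  obtain ⟨B, hB⟩ : ∃ B : ℝ, B = Cb ^ 2 * C₂ * D ^ (m + 2) := ⟨_, rfl⟩
  have hB0 : 0 ≤ B := by rw [hB]; positivity
  refine ⟨hTf.toFinset.card * B + 1, by positivity, ?_⟩
  intro R A G z₀ hR hA hG hsup hcls
  have hR0 : 0 < R := by linarith
  have hs0 : 0 < sR R := by unfold sR; positivity
  have hs1 : sR R ≤ 1 := by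
    unfold sR
    apply inv_le_one_of_one_le₀
    rw [← Real.sqrt_one]
    exact Real.sqrt_le_sqrt hR
  have hG4 : ∀ ζ, G ζ ≠ 0 → 1 / 4 ≤ ζ.1 := by
    intro ζ hζ
    have := (hsup ζ hζ).1
    linarith
  have hcont : ∀ k, Continuous (TP β (ctr (sR R) k) (sR R) G) := fun k =>
    (hSCH m _ (hCPS m β (ctr (sR R) k) (sR R) G hβ.1 hs0 hG hG4)).1
  have hmeas : ∀ k, Measurable fun z => ‖TP β (ctr (sR R) k) (sR R) G z‖ₑ ^ 2 := fun k =>
    ((hcont k).measurable.enorm).pow_const 2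
  obtain ⟨c, hc⟩ : ∃ c : ℝ, c = R ^ (-(2 * δ)) / D := ⟨_, rfl⟩
  have hRd0 : 0 < R ^ (-(2 * δ)) := by positivity
  have hc0 : 0 < c := by rw [hc]; positivity
  have hc1 : c ≤ 1 := by
    rw [hc, div_le_one hD0]
    exact (Real.rpow_le_one_of_one_le_of_nonpos hR (by linarith)).trans hD1
  obtain ⟨w1, w2, -, w4, -, -, -⟩ := hWT1 m N
  -- one cap of radius one
  have hcap : ∀ η : E m, ‖η‖ ≤ C₀ →
      ∑ k ∈ (Ks m (sR R)).filter (fun k => ‖ctr (sR R) k - η‖ ≤ 1),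
        ∫⁻ z, ‖TP β (ctr (sR R) k) (sR R) G z‖ₑ ^ 2 *
          ENNReal.ofReal (wt N (R ^ (-(1 + 2 * δ)) • (z - z₀))) ≤
      ENNReal.ofReal (B * R ^ (lo m * δ) * (A ^ 2 * R ^ (1 + α))) := by
    intro η hη
    obtain ⟨K, hK⟩ : ∃ K : Finset (Fin m → ℤ),
      K = (Ks m (sR R)).filter (fun k => ‖ctr (sR R) k - η‖ ≤ 1) := ⟨_, rfl⟩
    rw [← hK]
    obtain ⟨F, hF⟩ : ∃ F : Z m → ℝ≥0∞, F = fun z => ∑ k ∈ K,
      ‖TP β (ctr (sR R) k) (sR R) G z‖ₑ ^ 2 := ⟨_, rfl⟩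
    have hFm : Measurable F := by
      rw [hF]
      exact Finset.measurable_sum _ fun k _ => hmeas k
    obtain ⟨S, hS⟩ : ∃ S : ℝ≥0∞, S = ENNReal.ofReal (Cb ^ 2 * (A ^ 2 * R ^ (1 + α))) := ⟨_, rfl⟩
    have hbox : ∀ z₁, ∫⁻ z in VX η 1 R R z₁, F z ≤ S := by
      intro z₁
      have h1 := hcls (K.image (ctr (sR R))) (fun _ x => ((Cb⁻¹ : ℝ) : ℂ) * β x) η 1 R z₁
        (fun _ _ => hCb) (by
          intro x hx y hy hxy
          obtain ⟨k, -, rfl⟩ := Finset.mem_image.1 hx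
          obtain ⟨k', -, rfl⟩ := Finset.mem_image.1 hy
          exact ctr_sep hs0 fun h => hxy (by rw [h])) (by
          intro x hx
          obtain ⟨k, hk, rfl⟩ := Finset.mem_image.1 hx
          rw [hK] at hk
          exact (Finset.mem_filter.1 hk).2) hs1 le_rfl (by rw [one_pow, mul_one]) (by
          rw [mul_one])
      rw [Finset.sum_image fun k _ k' _ h => ctr_inj hs0 h] at h1
      have h2 : ∀ k z, ‖TP β (ctr (sR R) k) (sR R) G z‖ₑ ^ 2 = ENNReal.ofReal (Cb ^ 2) *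
          ‖TP (fun x => ((Cb⁻¹ : ℝ) : ℂ) * β x) (ctr (sR R) k) (sR R) G z‖ₑ ^ 2 := by
        intro k z
        rw [TP_const_mul, enorm_mul, mul_pow, ← mul_assoc]
        have h3 : ENNReal.ofReal (Cb ^ 2) * ‖((Cb⁻¹ : ℝ) : ℂ)‖ₑ ^ 2 = 1 := by
          rw [← ofReal_norm, Complex.norm_real, Real.norm_eq_abs, abs_of_pos (inv_pos.2 hCb0),
            ← ENNReal.ofReal_pow (by positivity), ← ENNReal.ofReal_mul (by positivity),
            ← mul_pow, mul_inv_cancel₀ hCb0.ne', one_pow, ENNReal.ofReal_one]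
        rw [h3, one_mul]
      have h4 : A ^ 2 * (R * (R * 1) ^ m * min (R ^ (α - m)) (R ^ (α - m))) =
          A ^ 2 * R ^ (1 + α) := by
        rw [min_self, mul_one]
        congr 1
        have h5 : R * R ^ m = R ^ (1 + (m : ℝ)) := by
          rw [Real.rpow_add hR0, Real.rpow_one, Real.rpow_natCast]
        rw [h5, ← Real.rpow_add hR0]
        congr 1
        ring
      rw [h4] at h1
      calc ∫⁻ z in VX η 1 R R z₁, F z
          = ∑ k ∈ K, ∫⁻ z in VX η 1 R R z₁, ‖TP β (ctr (sR R) k) (sR R) G z‖ₑ ^ 2 := by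
            rw [hF]
            exact lintegral_finsetSum _ fun k _ => hmeas k
        _ = ∑ k ∈ K, ENNReal.ofReal (Cb ^ 2) * ∫⁻ z in VX η 1 R R z₁,
            ‖TP (fun x => ((Cb⁻¹ : ℝ) : ℂ) * β x) (ctr (sR R) k) (sR R) G z‖ₑ ^ 2 := by
            refine Finset.sum_congr rfl fun k _ => ?_
            rw [← lintegral_const_mul' _ _ ENNReal.ofReal_ne_top]
            exact lintegral_congr fun z => h2 k z
        _ ≤ ENNReal.ofReal (Cb ^ 2) * ENNReal.ofReal (A ^ 2 * R ^ (1 + α)) := by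
            rw [← Finset.mul_sum]
            exact mul_le_mul' le_rfl h1
        _ = S := by rw [hS, ← ENNReal.ofReal_mul (by positivity)]
    have h2 := havx F η 1 R R c (c • St η 1 R R z₀) S hFm one_pos hR0 hR0 hc0 hc1 hbox
    have hlin : ∀ z : Z m, c • St η 1 R R z - c • St η 1 R R z₀ =
        c • R⁻¹ • Lo η 1 (z - z₀) := by
      intro z
      rw [st_ball, st_ball, ← smul_sub, ← smul_sub, ((hLOA m).1 η 1 z z₀).2.1]
    simp only [hlin] at h2
    have hw : ∀ z : Z m, wt N (R ^ (-(1 + 2 * δ)) • (z - z₀)) ≤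
        wt N (c • R⁻¹ • Lo η 1 (z - z₀)) := by
      intro z
      apply w4
      rw [norm_smul, norm_smul, norm_smul, Real.norm_eq_abs, Real.norm_eq_abs, Real.norm_eq_abs,
        abs_of_pos hc0, abs_of_pos (inv_pos.2 hR0), abs_of_pos (by positivity)]
      have h3 := ((hLOB m C₀ hC₀.le).1 η 1 (z - z₀) hη zero_le_one le_rfl).1
      rw [← hD] at h3
      have h4 : R ^ (-(1 + 2 * δ)) = R⁻¹ * R ^ (-(2 * δ)) := by
        rw [← Real.rpow_neg_one R, ← Real.rpow_add hR0]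
        congr 1
        ring
      calc c * (R⁻¹ * ‖Lo η 1 (z - z₀)‖) ≤ c * (R⁻¹ * (D * ‖z - z₀‖)) := by gcongr
        _ = R ^ (-(1 + 2 * δ)) * ‖z - z₀‖ := by
            rw [h4, hc]
            field_simp
    have hpow : (c⁻¹) ^ (m + 2) ≤ D ^ (m + 2) * R ^ (lo m * δ) := by
      have h3 : (c⁻¹) ^ (m + 2) = D ^ (m + 2) * R ^ (2 * δ * ((m : ℝ) + 2)) := by
        rw [hc, inv_div, div_pow, div_eq_mul_inv, ← inv_pow, ← Real.rpow_neg hR0.le, neg_neg,
          ← Real.rpow_natCast (R ^ (2 * δ)), ← Real.rpow_mul hR0.le]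
        push_cast
        rfl
      rw [h3]
      apply mul_le_mul_of_nonneg_left _ (by positivity)
      apply Real.rpow_le_rpow_of_exponent_le hR
      unfold lo
      have hm : (0 : ℝ) ≤ m := Nat.cast_nonneg m
      nlinarith [mul_nonneg hm hδ.le]
    calc ∑ k ∈ K, ∫⁻ z, ‖TP β (ctr (sR R) k) (sR R) G z‖ₑ ^ 2 *
          ENNReal.ofReal (wt N (R ^ (-(1 + 2 * δ)) • (z - z₀)))
        ≤ ∑ k ∈ K, ∫⁻ z, ‖TP β (ctr (sR R) k) (sR R) G z‖ₑ ^ 2 *
          ENNReal.ofReal (wt N (c • R⁻¹ • Lo η 1 (z - z₀))) := by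
          refine Finset.sum_le_sum fun k _ => lintegral_mono fun z => ?_
          exact mul_le_mul' le_rfl (ENNReal.ofReal_le_ofReal (hw z))
      _ = ∫⁻ z, F z * ENNReal.ofReal (wt N (c • R⁻¹ • Lo η 1 (z - z₀))) := by
          rw [← lintegral_finsetSum]
          · refine lintegral_congr fun z => ?_
            rw [hF, Finset.sum_mul]
          · intro k _
            apply (hmeas k).mul
            apply Measurable.ennreal_ofReal
            exact (w2.comp (by unfold Lo; fun_prop : Continuous fun z : Z m =>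
              c • R⁻¹ • Lo η 1 (z - z₀))).measurable
      _ ≤ C₂ * ENNReal.ofReal ((c⁻¹) ^ (m + 2)) * S := h2
      _ ≤ ENNReal.ofReal (B * R ^ (lo m * δ) * (A ^ 2 * R ^ (1 + α))) := by
          rw [hS, (ENNReal.ofReal_coe_nnreal (p := C₂)).symm, ← ENNReal.ofReal_mul (by positivity),
            ← ENNReal.ofReal_mul (by positivity)]
          apply ENNReal.ofReal_le_ofReal
          calc (C₂ : ℝ) * c⁻¹ ^ (m + 2) * (Cb ^ 2 * (A ^ 2 * R ^ (1 + α)))
              ≤ (C₂ : ℝ) * (D ^ (m + 2) * R ^ (lo m * δ)) * (Cb ^ 2 * (A ^ 2 * R ^ (1 + α))) := by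
                gcongr
            _ = B * R ^ (lo m * δ) * (A ^ 2 * R ^ (1 + α)) := by
                rw [hB]
                ring
  -- all caps
  obtain ⟨f, hf⟩ : ∃ f : (Fin m → ℤ) → ℝ≥0∞, f = fun k =>
    ∫⁻ z, ‖TP β (ctr (sR R) k) (sR R) G z‖ₑ ^ 2 *
      ENNReal.ofReal (wt N (R ^ (-(1 + 2 * δ)) • (z - z₀))) := ⟨_, rfl⟩
  have hEr : Er N β R δ G z₀ = ∑ k ∈ Ks m (sR R), f k := by
    rw [hf]
    rfl
  rw [hEr]
  have hcover : ∀ k ∈ Ks m (sR R), ∃ η ∈ hTf.toFinset, ‖ctr (sR R) k - η‖ ≤ 1 := by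
    intro k hk
    have h1 : ctr (sR R) k ∈ Metric.closedBall (0 : E m) C₀ := by
      rw [mem_closedBall_zero_iff]
      exact hctr (sR R) k hs0 hs1 hk
    have h2 := hT2 h1
    rw [mem_iUnion₂] at h2
    obtain ⟨η, hη, h3⟩ := h2
    rw [mem_ball_iff_norm] at h3
    exact ⟨η, hTf.mem_toFinset.2 hη, h3.le⟩
  calc ∑ k ∈ Ks m (sR R), f k
      ≤ ∑ k ∈ Ks m (sR R), ∑ η ∈ hTf.toFinset, if ‖ctr (sR R) k - η‖ ≤ 1 then f k else 0 := by
        refine Finset.sum_le_sum fun k hk => ?_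
        obtain ⟨η, hη, h1⟩ := hcover k hk
        calc f k = if ‖ctr (sR R) k - η‖ ≤ 1 then f k else 0 := by rw [if_pos h1]
          _ ≤ ∑ η ∈ hTf.toFinset, if ‖ctr (sR R) k - η‖ ≤ 1 then f k else 0 :=
            Finset.single_le_sum (f := fun η => if ‖ctr (sR R) k - η‖ ≤ 1 then f k else 0)
              (fun _ _ => zero_le) hη
    _ = ∑ η ∈ hTf.toFinset, ∑ k ∈ (Ks m (sR R)).filter (fun k => ‖ctr (sR R) k - η‖ ≤ 1),
          f k := by
        rw [Finset.sum_comm]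
        refine Finset.sum_congr rfl fun η _ => ?_
        rw [Finset.sum_filter]
    _ ≤ ∑ η ∈ hTf.toFinset, ENNReal.ofReal (B * R ^ (lo m * δ) * (A ^ 2 * R ^ (1 + α))) := by
        refine Finset.sum_le_sum fun η hη => ?_
        rw [hf]
        refine hcap η ?_
        have h1 := hT1 (hTf.mem_toFinset.1 hη)
        rwa [mem_closedBall_zero_iff] at h1
    _ = ENNReal.ofReal (hTf.toFinset.card * (B * R ^ (lo m * δ) * (A ^ 2 * R ^ (1 + α)))) := by
        rw [Finset.sum_const, nsmul_eq_mul, ENNReal.ofReal_mul (p := (hTf.toFinset.card : ℝ))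
          (by positivity), ENNReal.ofReal_natCast]
    _ ≤ ENNReal.ofReal ((hTf.toFinset.card * B + 1) * R ^ (lo m * δ) *
          (A ^ 2 * R ^ (1 + α))) := by
        apply ENNReal.ofReal_le_ofReal
        have h1 : 0 ≤ R ^ (lo m * δ) * (A ^ 2 * R ^ (1 + α)) := by positivity
        nlinarith

end Pool.Agent.H42.FD.ENX
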